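import Pool.Agent.W811.LW.Stm

set_option autoImplicit false

namespace Pool.Agent.W464.LW

open Pool.Agent.W811.LW

theorem sq2 : SQ2 := by
  intro q p hq
  by_contra hlt
  rw [not_le] at hlt
  have hq1 : (1 : ℝ) ≤ (q : ℝ) := by exact_mod_cast hq
  have hs2 : Real.sqrt 2 * Real.sqrt 2 = 2 := Real.mul_self_sqrt (by norm_num)
  have hs0 : 0 ≤ Real.sqrt 2 := Real.sqrt_nonneg 2
  have hsle : Real.sqrt 2 ≤ 3 / 2 := by nlinarith
  have h0 : 0 ≤ |(q : ℝ) * Real.sqrt 2 - (p : ℝ)| := abs_nonneg _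
  have hlt' : |(q : ℝ) * Real.sqrt 2 - (p : ℝ)| < 1 / 4 := by nlinarith
  have hplus : |(q : ℝ) * Real.sqrt 2 + (p : ℝ)| ≤ 4 * (q : ℝ) := by
    have e : (q : ℝ) * Real.sqrt 2 + (p : ℝ)
        = 2 * ((q : ℝ) * Real.sqrt 2) - ((q : ℝ) * Real.sqrt 2 - (p : ℝ)) := by ring
    rw [e, abs_le]
    have h1 := abs_lt.mp hlt'
    constructor <;> nlinarith [h1.1, h1.2]
  have hprod : |(q : ℝ) * Real.sqrt 2 - (p : ℝ)| * |(q : ℝ) * Real.sqrt 2 + (p : ℝ)|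
      = |(((2 * q ^ 2 - p ^ 2 : ℤ)) : ℝ)| := by
    rw [← abs_mul]
    congr 1
    push_cast
    nlinarith
  have hne : (2 * q ^ 2 - p ^ 2 : ℤ) ≠ 0 := by
    intro h
    have hR : ((p : ℝ)) ^ 2 = 2 * (q : ℝ) ^ 2 := by
      have : (p : ℤ) ^ 2 = 2 * q ^ 2 := by linarith
      exact_mod_cast this
    have hqpos : (0 : ℝ) < q := by linarith
    have hsq : Real.sqrt 2 = |(p : ℝ)| / (q : ℝ) := by
      rw [eq_div_iff hqpos.ne']
      have h2 : (Real.sqrt 2 * (q : ℝ)) ^ 2 = |(p : ℝ)| ^ 2 := by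
        rw [sq_abs, hR, mul_pow, Real.sq_sqrt (by norm_num)]
      exact (pow_left_inj₀ (by positivity) (abs_nonneg _) (by norm_num)).mp h2
    refine irrational_sqrt_two ⟨(|p| : ℚ) / (q : ℚ), ?_⟩
    rw [hsq]
    push_cast
    rfl
  have hone : (1 : ℝ) ≤ |(((2 * q ^ 2 - p ^ 2 : ℤ)) : ℝ)| := by
    rw [← Int.cast_abs]
    exact_mod_cast Int.one_le_abs hne
  rw [← hprod] at hone
  have : |(q : ℝ) * Real.sqrt 2 - (p : ℝ)| * |(q : ℝ) * Real.sqrt 2 + (p : ℝ)|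
      ≤ |(q : ℝ) * Real.sqrt 2 - (p : ℝ)| * (4 * (q : ℝ)) :=
    mul_le_mul_of_nonneg_left hplus h0
  nlinarith

end Pool.Agent.W464.LW
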